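import Pool.Agent.Lib.MP_144d21_co.XU.Base

/-!
# MP_144d21_co, project XU: module statements. Hints in Blueprint.md in this folder.
-/

set_option autoImplicit false

namespace Pool.Agent.Xu

open Finset Polynomial

/-! ### A. Colourings and the chromatic polynomial -/

/-- COLDC -/
def ColdcS : Prop := ∀ (V : Type) [Fintype V] [DecidableEq V] (G : SimpleGraph V) (S : Finset V)
  (v w : V), v ∈ S → w ∈ S → G.Adj v w → ∀ q : ℕ,
  (cols (del G v w) S q).card = (cols G S q).card + (cols (con G v w) (S.erase v) q).card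

/-- GLUE: clique sums -/
def GlueS : Prop := ∀ (V : Type) [Fintype V] [DecidableEq V] (G : SimpleGraph V)
  (S1 S2 : Finset V), Sep G S1 S2 → (∀ x ∈ S1 ∩ S2, ∀ y ∈ S1 ∩ S2, x ≠ y → G.Adj x y) →
  ∀ q : ℕ, q.descFactorial (S1 ∩ S2).card * (cols G (S1 ∪ S2) q).card =
    (cols G S1 q).card * (cols G S2 q).card

/-- NECNT: counting edges -/
def NecntS : Prop := ∀ (V : Type) [Fintype V] [DecidableEq V] (G : SimpleGraph V) (S : Finset V),
  (∀ v ∈ S, ∀ w ∈ S, G.Adj v w → ne (del G v w) S + 1 = ne G S ∧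
    ne (con G v w) (S.erase v) + 1 + (nb G S v ∩ nb G S w).card = ne G S) ∧
  (∀ v ∈ S, ne G S = ne G (S.erase v) + (nb G S v).card) ∧
  (∀ v ∈ S, ∀ w ∈ S, v ≠ w → ¬ G.Adj v w → ne (add G v w) S = ne G S + 1) ∧
  (∀ S1 S2 x y, S1 ∪ S2 = S → S1 ∩ S2 = {x, y} → G.Adj x y → Sep G S1 S2 →
    ne G S + 1 = ne G S1 + ne G S2)

/-- CHI: the chromatic polynomial exists. Uses COLDC, NECNT. -/
def ChiS : Prop := ∀ (V : Type) [Fintype V] [DecidableEq V] (G : SimpleGraph V) (S : Finset V),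
  IsChi (chi G S) G S

/-- CHIDC. Uses COLDC, CHI. -/
def ChidcS : Prop := ∀ (V : Type) [Fintype V] [DecidableEq V] (G : SimpleGraph V) (S : Finset V)
  (v w : V), v ∈ S → w ∈ S → G.Adj v w →
  chi (del G v w) S = chi G S + chi (con G v w) (S.erase v)

/-- CHIGL. Uses GLUE, CHI. -/
def ChiglS : Prop := ∀ (V : Type) [Fintype V] [DecidableEq V] (G : SimpleGraph V)
  (S1 S2 : Finset V), Sep G S1 S2 →
  (S1 ∩ S2 = ∅ → chi G (S1 ∪ S2) = chi G S1 * chi G S2) ∧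
  (∀ x, S1 ∩ S2 = {x} → X * chi G (S1 ∪ S2) = chi G S1 * chi G S2) ∧
  (∀ x y, G.Adj x y → S1 ∩ S2 = {x, y} →
    X * (X - C 1) * chi G (S1 ∪ S2) = chi G S1 * chi G S2)

/-- COEF. Uses CHI, CHIDC, NECNT. -/
def CoefS : Prop := ∀ (V : Type) [Fintype V] [DecidableEq V] (G : SimpleGraph V) (S : Finset V),
  (chi G S).Monic ∧ (chi G S).natDegree = S.card ∧
  (1 ≤ S.card → (chi G S).coeff (S.card - 1) = - (ne G S : ℤ))

/-- TRIC: the third coefficient of triangle-free graphs. Uses CHIDC, COEF, NECNT. -/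
def TricS : Prop := ∀ (V : Type) [Fintype V] [DecidableEq V] (G : SimpleGraph V) (S : Finset V),
  2 ≤ S.card → (∀ x ∈ S, ∀ y ∈ S, ∀ z ∈ S, ¬ (G.Adj x y ∧ G.Adj y z ∧ G.Adj x z)) →
  2 * (chi G S).coeff (S.card - 2) = (ne G S : ℤ) * ((ne G S : ℤ) - 1)

/-- ALPHA: `0` is a simple root for connected graphs. Uses CHI, CHIDC, CHIGL, NECNT. -/
def AlphaS : Prop := ∀ (V : Type) [Fintype V] [DecidableEq V] (G : SimpleGraph V) (S : Finset V),
  Conn G S → 0 < alp G S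

/-- BETDC. Uses CHIDC. -/
def BetdcS : Prop := ∀ (V : Type) [Fintype V] [DecidableEq V] (G : SimpleGraph V) (S : Finset V)
  (v w : V), v ∈ S → w ∈ S → G.Adj v w →
  bet G S = bet (del G v w) S + bet (con G v w) (S.erase v)

/-- BETCUT. Uses CHI, CHIDC, CHIGL. -/
def BetcutS : Prop := ∀ (V : Type) [Fintype V] [DecidableEq V] (G : SimpleGraph V)
  (S1 S2 : Finset V) (x y : V), TwoConn G (S1 ∪ S2) → S1 ∩ S2 = {x, y} → x ≠ y → Sep G S1 S2 →
  ¬ S1 ⊆ S2 → ¬ S2 ⊆ S1 →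
  bet G (S1 ∪ S2) = bet (add G x y) S1 * bet (add G x y) S2

/-! ### B. Connectivity and degrees -/

/-- CUTCONN -/
def CutconnS : Prop := ∀ (V : Type) [Fintype V] [DecidableEq V] (G : SimpleGraph V)
  (S1 S2 : Finset V) (x y : V), TwoConn G (S1 ∪ S2) → S1 ∩ S2 = {x, y} → x ≠ y → Sep G S1 S2 →
  TwoConn (add G x y) S1

/-- DICH -/
def DichS : Prop := ∀ (V : Type) [Fintype V] [DecidableEq V] (G : SimpleGraph V) (S : Finset V),
  4 ≤ S.card → TwoConn G S → ThreeConn G S ∨ ∃ (x y : V) (S1 S2 : Finset V), x ≠ y ∧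
    S1 ∪ S2 = S ∧ S1 ∩ S2 = {x, y} ∧ Sep G S1 S2 ∧ S1 ≠ S ∧ S2 ≠ S

/-- DEL2 -/
def Del2S : Prop := ∀ (V : Type) [Fintype V] [DecidableEq V] (G : SimpleGraph V) (S : Finset V)
  (v w : V), ThreeConn G S → v ∈ S → w ∈ S → G.Adj v w → TwoConn (del G v w) S

/-- CON2 -/
def Con2S : Prop := ∀ (V : Type) [Fintype V] [DecidableEq V] (G : SimpleGraph V) (S : Finset V)
  (v w : V), ThreeConn G S → v ∈ S → w ∈ S → G.Adj v w → TwoConn (con G v w) (S.erase v)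

/-- DEGGE -/
def DeggeS : Prop := ∀ (V : Type) [Fintype V] [DecidableEq V] (G : SimpleGraph V) (S : Finset V)
  (v : V), ThreeConn G S → v ∈ S → 3 ≤ (nb G S v).card

/-- HAND (handshake) -/
def HandS : Prop := ∀ (V : Type) [Fintype V] [DecidableEq V] (G : SimpleGraph V) (S : Finset V),
  ne G S < 3 * S.card → ∃ v ∈ S, (nb G S v).card ≤ 5

/-- CHG: chordal graphs glued along a clique -/
def ChgS : Prop := ∀ (V : Type) [Fintype V] [DecidableEq V] (G : SimpleGraph V)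
  (S1 S2 : Finset V), Sep G S1 S2 → (∀ x ∈ S1 ∩ S2, ∀ y ∈ S1 ∩ S2, x ≠ y → G.Adj x y) →
  ChordalOn G S1 → ChordalOn G S2 → ChordalOn G (S1 ∪ S2)

/-- CYCCON: a chordless cycle of length at least 5 through the edge `vw` gives a chordless cycle in
the contraction -/
def CycconS : Prop := ∀ (V : Type) [Fintype V] [DecidableEq V] (G : SimpleGraph V) (S : Finset V)
  (v w : V), v ∈ S → w ∈ S → G.Adj v w → ChordalOn (con G v w) (S.erase v) →
  ∀ n, 4 ≤ n → ∀ f : SimpleGraph.cycleGraph n ↪g G, (∀ i, f i ∈ S) → (∃ i, f i = v) →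
  (∃ i, f i = w) → ∃ z1 ∈ S, ∃ z2 ∈ S, G.Adj w z1 ∧ G.Adj z1 z2 ∧ G.Adj z2 v ∧
    ¬ G.Adj v z1 ∧ ¬ G.Adj w z2 ∧ z1 ≠ v ∧ z2 ≠ w

/-! ### C. Rows in general position -/

/-- RKNE -/
def RkneS : Prop := ∀ (V : Type) [Fintype V] [DecidableEq V] (G G' : SimpleGraph V)
  (S S' : Finset V) (p : V → Fin 3 → ℝ), rk p G S ≤ ne G S ∧
  (S' ⊆ S → (∀ u ∈ S', ∀ v ∈ S', G'.Adj u v → G.Adj u v) → rk p G S = ne G S →
    rk p G' S' = ne G' S')

/-- RKLT -/
def RkltS : Prop := ∀ (V : Type) [Fintype V] [DecidableEq V] (G : SimpleGraph V) (S : Finset V)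
  (p : V → Fin 3 → ℝ), S.Nonempty → rk p G S < 3 * S.card

/-- RKDEL -/
def RkdelS : Prop := ∀ (V : Type) [Fintype V] [DecidableEq V] (G : SimpleGraph V) (S : Finset V)
  (v w : V) (p : V → Fin 3 → ℝ), rk p G S ≤ rk p (del G v w) S + 1

/-- RKRED: if the rows are dependent then some row is redundant -/
def RkredS : Prop := ∀ (V : Type) [Fintype V] [DecidableEq V] (G : SimpleGraph V) (S : Finset V)
  (p : V → Fin 3 → ℝ), rk p G S ≠ ne G S →
  ∃ v ∈ S, ∃ w ∈ S, G.Adj v w ∧ rk p (del G v w) S = rk p G S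

/-- RKCUT -/
def RkcutS : Prop := ∀ (V : Type) [Fintype V] [DecidableEq V] (G : SimpleGraph V)
  (S1 S2 : Finset V) (x y : V) (p : V → Fin 3 → ℝ), p x ≠ p y → G.Adj x y →
  x ∈ S1 → x ∈ S2 → y ∈ S1 → y ∈ S2 → Sep G S1 S2 →
  rk p G (S1 ∪ S2) + 1 ≤ rk p G S1 + rk p G S2

/-- K5DEP: in `K_5` every row is a combination of the other nine -/
def K5depS : Prop := ∀ (V : Type) [Fintype V] [DecidableEq V] (p : V → Fin 3 → ℝ), GP p →
  ∀ a b c d e : V, a ≠ b → a ≠ c → a ≠ d → a ≠ e → b ≠ c → b ≠ d → b ≠ e → c ≠ d → c ≠ e →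
  d ≠ e → row p a b ∈ Submodule.span ℝ ({row p a c, row p a d, row p a e, row p b c, row p b d,
    row p b e, row p c d, row p c e, row p d e} : Set (V → Fin 3 → ℝ))

/-- LIN5: linear algebra -/
def Lin5S : Prop := ∀ (M : Type) [AddCommGroup M] [Module ℝ M] (x : Fin 5 → Fin 5 → M),
  (∀ i j, x i j = x j i) →
  (∀ i j k, i ≠ j → i ≠ k → x i j ≠ 0 → x i k ∈ Submodule.span ℝ ({x i j} : Set M)) →
  (∀ i j, i ≠ j → x i j ∈ Submodule.span ℝ {y | ∃ k l, k ≠ l ∧ ¬ (k = i ∧ l = j) ∧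
    ¬ (k = j ∧ l = i) ∧ y = x k l}) →
  ∃ u : M, ∀ i j, i ≠ j → x i j ∈ Submodule.span ℝ ({u} : Set M)

/-- ST4. Uses K5DEP. -/
def St4S : Prop := ∀ (V : Type) [Fintype V] [DecidableEq V] (p : V → Fin 3 → ℝ), GP p →
  ∀ (U : Submodule ℝ (V → Fin 3 → ℝ)) (v : V) (w : Fin 4 → V), Function.Injective w →
  (∀ i, w i ≠ v) →
  Module.finrank ℝ (U ⊔ Submodule.span ℝ (Set.range fun i => row p v (w i)) :
    Submodule ℝ (V → Fin 3 → ℝ)) = Module.finrank ℝ U + 4 →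
  ∃ i j, i ≠ j ∧ row p (w i) (w j) ∉ U

/-- ST5. Uses K5DEP, LIN5. -/
def St5S : Prop := ∀ (V : Type) [Fintype V] [DecidableEq V] (p : V → Fin 3 → ℝ), GP p →
  ∀ (U : Submodule ℝ (V → Fin 3 → ℝ)) (v : V) (w : Fin 5 → V), Function.Injective w →
  (∀ i, w i ≠ v) →
  Module.finrank ℝ (U ⊔ Submodule.span ℝ (Set.range fun i => row p v (w i)) :
    Submodule ℝ (V → Fin 3 → ℝ)) = Module.finrank ℝ U + 5 →
  ∃ i, Module.finrank ℝ U + 2 ≤ Module.finrank ℝ (U ⊔ Submodule.span ℝ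
    (Set.range fun j => row p (w i) (w j)) : Submodule ℝ (V → Fin 3 → ℝ))

/-- STARR. Uses RKNE, NECNT, ST4, ST5. -/
def StarrS : Prop := ∀ (V : Type) [Fintype V] [DecidableEq V] (G : SimpleGraph V) (S : Finset V)
  (p : V → Fin 3 → ℝ), GP p → ∀ v ∈ S, 3 ≤ (nb G S v).card → (nb G S v).card ≤ 5 →
  rk p G S = ne G S →
  ∃ w ∈ nb G S v, rk p G S ≤ rk p (con G v w) (S.erase v) + 3

/-- K6R: six vertices. Uses K5DEP. -/
def K6rS : Prop := ∀ (V : Type) [Fintype V] [DecidableEq V] (G : SimpleGraph V) (T : Finset V)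
  (p : V → Fin 3 → ℝ), GP p → T.card = 6 → rk p G T ≤ 12

/-- CHEQ. Uses CYCCON, K6R, RKNE. -/
def CheqS : Prop := ∀ (V : Type) [Fintype V] [DecidableEq V] (G : SimpleGraph V) (S : Finset V)
  (p : V → Fin 3 → ℝ), GP p → ∀ v ∈ S, ∀ w ∈ S, G.Adj v w → ChordalOn (del G v w) S →
  ChordalOn (con G v w) (S.erase v) → (nb G S v ∩ nb G S w).card = 2 → rk p G S = ne G S →
  ChordalOn G S

/-! ### D. Theorem A -/

/-- the statement of Theorem A for `G[S]` -/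
def Concl {V : Type} [Fintype V] [DecidableEq V] (p : V → Fin 3 → ℝ) (G : SimpleGraph V)
    (S : Finset V) : Prop :=
  (2 : ℤ) ^ rk p G S ≤ bet G S * 2 ^ (2 * S.card - 3) ∧
    ((2 : ℤ) ^ rk p G S = bet G S * 2 ^ (2 * S.card - 3) → ChordalOn G S ∧ rk p G S = ne G S)

/-- BASE3: `K_2` and `K_3` -/
def Base3S : Prop := ∀ (V : Type) [Fintype V] [DecidableEq V] (G : SimpleGraph V) (S : Finset V)
  (p : V → Fin 3 → ℝ), GP p → TwoConn G S → S.card ≤ 3 → Concl p G S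

/-- CUTSTEP. Uses BETCUT, RKCUT, RKNE, NECNT, CHG. -/
def CutstepS : Prop := ∀ (V : Type) [Fintype V] [DecidableEq V] (G : SimpleGraph V)
  (S1 S2 : Finset V) (x y : V) (p : V → Fin 3 → ℝ), GP p → TwoConn G (S1 ∪ S2) →
  S1 ∩ S2 = {x, y} → x ≠ y → Sep G S1 S2 → ¬ S1 ⊆ S2 → ¬ S2 ⊆ S1 →
  Concl p (add G x y) S1 → Concl p (add G x y) S2 → Concl p G (S1 ∪ S2)

/-- REDSTEP. Uses BETDC. -/
def RedstepS : Prop := ∀ (V : Type) [Fintype V] [DecidableEq V] (G : SimpleGraph V)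
  (S : Finset V) (v w : V) (p : V → Fin 3 → ℝ), 2 ≤ S.card → v ∈ S → w ∈ S → G.Adj v w →
  rk p (del G v w) S = rk p G S → Concl p (del G v w) S → Concl p (con G v w) (S.erase v) →
  Concl p G S

/-- INDSTEP. Uses BETDC, NECNT, RKNE, RKDEL, CHEQ. -/
def IndstepS : Prop := ∀ (V : Type) [Fintype V] [DecidableEq V] (G : SimpleGraph V)
  (S : Finset V) (v w : V) (p : V → Fin 3 → ℝ), GP p → 4 ≤ S.card → v ∈ S → w ∈ S →
  G.Adj v w → rk p G S = ne G S → rk p G S ≤ rk p (con G v w) (S.erase v) + 3 →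
  Concl p (del G v w) S → Concl p (con G v w) (S.erase v) → Concl p G S

/-- THMA. Uses BASE3, DICH, CUTCONN, CUTSTEP, DEL2, CON2, RKRED, RKNE, REDSTEP, RKLT, HAND, DEGGE,
STARR, INDSTEP, NECNT. -/
def ThmaS : Prop := ∀ (V : Type) [Fintype V] [DecidableEq V] (G : SimpleGraph V) (S : Finset V)
  (p : V → Fin 3 → ℝ), GP p → TwoConn G S → Concl p G S

/-! ### E. Placements -/

/-- PERT: general position near a given placement -/
def PertS : Prop := ∀ (V : Type) [Fintype V] [DecidableEq V] (G : SimpleGraph V) (S : Finset V)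
  (p0 : V → Fin 3 → ℝ), ∃ p, GP p ∧ rk p0 G S ≤ rk p G S

/-- the placement of the colours `0, 1, 2, 3` at the vertices of a simplex -/
def plc {V : Type} (c : V → ℕ) : V → Fin 3 → ℝ := fun v k => if c v = k.val + 1 then 1 else 0

/-- RANKT -/
def RanktS : Prop := ∀ (V : Type) [Fintype V] [DecidableEq V] (G : SimpleGraph V) (S : Finset V)
  (c : V → ℕ), c ∈ cols G S 4 → 3 * S.card ≤ rk (plc c) G S + kap2 G S c

/-! ### F. Entropy -/

/-- REAL3 -/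
def Real3S : Prop := ∀ x y z : ℝ, 0 ≤ x → 0 ≤ y → 0 ≤ z → x + y + z = 1 →
  7 / 10 * (Real.negMulLog x + Real.negMulLog y + Real.negMulLog z) ≤
    Real.negMulLog (x + y) + Real.negMulLog (y + z) + Real.negMulLog (z + x)

/-- SUBMOD -/
def SubmodS : Prop := ∀ (ι α β γ : Type) [DecidableEq ι] [DecidableEq α] [DecidableEq β]
  [DecidableEq γ] (Ω : Finset ι) (y : ι → α) (z : ι → β) (w : ι → γ),
  (∀ a ∈ Ω, ∀ b ∈ Ω, z a = z b → y a = y b) →
  ∑ a ∈ Ω, (Real.log (Ω.filter fun b => z b = z a).card -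
      Real.log (Ω.filter fun b => z b = z a ∧ w b = w a).card) ≤
    ∑ a ∈ Ω, (Real.log (Ω.filter fun b => y b = y a).card -
      Real.log (Ω.filter fun b => y b = y a ∧ w b = w a).card)

/-- number of colourings which agree with `c` on `A` and have colour `i` at `v` -/
noncomputable def cL {V : Type} [Fintype V] [DecidableEq V] (G : SimpleGraph V)
    (S A : Finset V) (v : V) (i : ℕ) (c : V → ℕ) : ℕ := by
  classical
  exact ((cols G S 4).filter fun c' => (∀ u ∈ A, c' u = c u) ∧ c' v = i).card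

/-- STEPA. Uses SUBMOD. -/
def StepaS : Prop := ∀ (V : Type) [Fintype V] [DecidableEq V] (G : SimpleGraph V)
  (S A : Finset V) (v : V) (i j : ℕ), v ∈ S → v ∉ A → A ⊆ S → i < j → j < 4 →
  ∑ c ∈ cols G S 4, (Real.log (cM G S A i j c) - Real.log (cM G S (insert v A) i j c)) ≤
    ∑ c ∈ cols G S 4, (if c v = i ∨ c v = j then
      Real.log (cL G S A v i c + cL G S A v j c : ℕ) - Real.log (cL G S A v (c v) c) else 0)

/-- STEPB: a real inequality for naturals. Uses REAL3. -/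
def StepbS : Prop := ∀ (N : ℕ → ℕ) (k0 : ℕ), k0 < 4 → N k0 = 0 →
  ∑ l ∈ range 4, (N l : ℝ) * ∑ s ∈ prs, (if l = s.1 ∨ l = s.2 then
      Real.log (N s.1 + N s.2 : ℕ) - Real.log (N l) else 0) ≤
    13 / 10 * ∑ l ∈ range 4, (N l : ℝ) * (Real.log (N 0 + N 1 + N 2 + N 3 : ℕ) - Real.log (N l))

/-- STEPC. Uses STEPA, STEPB. -/
def StepcS : Prop := ∀ (V : Type) [Fintype V] [DecidableEq V] (G : SimpleGraph V)
  (S A : Finset V) (v u : V), v ∈ S → v ∉ A → A ⊆ S → u ∈ A → G.Adj u v →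
  ∑ c ∈ cols G S 4, ∑ s ∈ prs, (Real.log (cM G S A s.1 s.2 c) -
      Real.log (cM G S (insert v A) s.1 s.2 c)) ≤
    13 / 10 * ∑ c ∈ cols G S 4, (Real.log (cN G S A c) - Real.log (cN G S (insert v A) c))

/-- ENTALL. Uses STEPC. -/
def EntallS : Prop := ∀ (V : Type) [Fintype V] [DecidableEq V] (G : SimpleGraph V)
  (S A : Finset V), Conn G S → A ⊆ S → A.Nonempty →
  ∑ c ∈ cols G S 4, ∑ s ∈ prs, Real.log (cM G S A s.1 s.2 c) ≤
    13 / 10 * ∑ c ∈ cols G S 4, Real.log (cN G S A c)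

/-- TRISYM -/
def TrisymS : Prop := ∀ (V : Type) [Fintype V] [DecidableEq V] (G : SimpleGraph V)
  (S : Finset V) (x y z : V), x ∈ S → y ∈ S → z ∈ S → G.Adj x y → G.Adj y z → G.Adj x z →
  ∀ c ∈ cols G S 4, 24 * cN G S {x, y, z} c = (cols G S 4).card

/-- FIBER: Kempe changes -/
def FiberS : Prop := ∀ (V : Type) [Fintype V] [DecidableEq V] (G : SimpleGraph V)
  (S : Finset V) (x y z : V) (i j : ℕ), x ∈ S → y ∈ S → z ∈ S → G.Adj x y → G.Adj y z →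
  G.Adj x z → i < j → j < 4 → ∀ c ∈ cols G S 4,
  2 ^ kap G S c i j ≤ 2 * cM G S {x, y, z} i j c

/-- ENTF. Uses ENTALL, TRISYM, FIBER. -/
def EntfS : Prop := ∀ (V : Type) [Fintype V] [DecidableEq V] (G : SimpleGraph V)
  (S : Finset V) (x y z : V) (K : ℕ), Conn G S → x ∈ S → y ∈ S → z ∈ S → G.Adj x y →
  G.Adj y z → G.Adj x z → (cols G S 4).Nonempty → (∀ c ∈ cols G S 4, K + 6 ≤ kap2 G S c) →
  (K : ℝ) * Real.log 2 ≤ 13 / 10 * Real.log ((cols G S 4).card / 24)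

/-! ### G. Polynomials, blocks, end -/

/-- FACT -/
def FactS : Prop := ∀ (P Q : ℤ[X]) (r0 r1 a b : ℕ), P.Monic → Q.Monic →
  P * Q = X ^ r0 * (X - C 1) ^ r1 * (X - C 2) ^ a * (X - C 3) ^ b →
  ∃ r0' r1' a' b' : ℕ, a' ≤ a ∧ P = X ^ r0' * (X - C 1) ^ r1' * (X - C 2) ^ a' * (X - C 3) ^ b'

/-- NUM: degree and coefficients of the product -/
def NumS : Prop := ∀ (P : ℤ[X]) (r0 r1 a b : ℕ),
  P = X ^ r0 * (X - C 1) ^ r1 * (X - C 2) ^ a * (X - C 3) ^ b →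
  P.natDegree = r0 + r1 + a + b ∧
  (1 ≤ P.natDegree → P.coeff (P.natDegree - 1) = - ((r1 + 2 * a + 3 * b : ℕ) : ℤ)) ∧
  (2 ≤ P.natDegree → 2 * P.coeff (P.natDegree - 2) =
    ((r1 + 2 * a + 3 * b : ℕ) : ℤ) ^ 2 - ((r1 + 4 * a + 9 * b : ℕ) : ℤ)) ∧
  (2 ≤ r0 → (derivative P).eval 0 = 0) ∧ (r0 = 0 → P.eval 0 ≠ 0) ∧
  (2 ≤ r1 → (derivative P).eval 1 = 0) ∧ (r1 = 0 → P.eval 1 ≠ 0) ∧
  (r0 = 1 → r1 = 1 → (-1) ^ (2 + a + b) * (derivative P).eval 1 = 2 ^ b) ∧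
  (r0 = 1 → r1 = 1 → P.eval 4 = 12 * 2 ^ a)

/-- CORENUM. Uses NUM, COEF, ALPHA, CHI, THMA, PERT. -/
def CorenumS : Prop := ∀ (V : Type) [Fintype V] [DecidableEq V] (G : SimpleGraph V)
  (S : Finset V) (r0 r1 a b : ℕ), TwoConn G S →
  chi G S = X ^ r0 * (X - C 1) ^ r1 * (X - C 2) ^ a * (X - C 3) ^ b →
  r0 = 1 ∧ r1 = 1 ∧ S.card = 2 + a + b ∧ ne G S = 1 + 2 * a + 3 * b ∧ bet G S = 2 ^ b ∧
    (cols G S 4).card = 12 * 2 ^ a ∧
    (1 ≤ a + b → ∃ x ∈ S, ∃ y ∈ S, ∃ z ∈ S, G.Adj x y ∧ G.Adj y z ∧ G.Adj x z)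

/-- T4CORE. Uses CORENUM, THMA. -/
def T4coreS : Prop := ∀ (V : Type) [Fintype V] [DecidableEq V] (G : SimpleGraph V)
  (S : Finset V) (p : V → Fin 3 → ℝ) (a : ℕ), GP p → TwoConn G S → rk p G S = ne G S →
  Good G S a → ChordalOn G S

/-- T5CORE. Uses CORENUM, T4CORE, PERT, RKNE, RANKT, ENTF. -/
def T5coreS : Prop := ∀ (V : Type) [Fintype V] [DecidableEq V] (G : SimpleGraph V)
  (S : Finset V), TwoConn G S → Good G S 4 → ChordalOn G S

/-- BLOCK. Uses CHIGL, COEF, FACT, CHG. -/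
def BlockS : Prop := ∀ (V : Type) [Fintype V] [DecidableEq V] (G : SimpleGraph V)
  (Pr : Finset V → Prop) (a : ℕ), (∀ S S', S' ⊆ S → Pr S → Pr S') →
  (∀ S, TwoConn G S → Pr S → Good G S a → ChordalOn G S) →
  ∀ S, Pr S → Good G S a → ChordalOn G S

/-- COLEQ: link to `SimpleGraph.Coloring` -/
def ColeqS : Prop := ∀ (V : Type) [Fintype V] [DecidableEq V] (G : SimpleGraph V) (q : ℕ),
  Nat.card (G.Coloring (Fin q)) = (cols G univ q).card

/-- T4: members which are independent at some placement are chordal. Uses BLOCK, T4CORE, PERT,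
RKNE. -/
def T4S : Prop := ∀ (V : Type) [Fintype V] [DecidableEq V] (G : SimpleGraph V)
  (p : V → Fin 3 → ℝ) (a : ℕ), rk p G univ = ne G univ → Good G univ a → ChordalOn G univ

/-- T5: `r_2 ≤ 4`. Uses BLOCK, T5CORE. -/
def T5S : Prop := ∀ (V : Type) [Fintype V] [DecidableEq V] (G : SimpleGraph V),
  Good G univ 4 → ChordalOn G univ

end Pool.Agent.Xu
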