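import Mathlib

/-!
# MP_144d21_co, project XU: a rigidity bound for the chromatic invariant. Definitions.
See Blueprint.md in this folder. All graphs live on an ambient finite type `V`; the graph meant is
`G[S]` for a finite set `S` of vertices.
-/

set_option autoImplicit false

namespace Pool.Agent.Xu

open Finset Polynomial

variable {V : Type} [Fintype V] [DecidableEq V]

/-! ### Colourings and the chromatic polynomial -/

/-- proper colourings of `G[S]` with the colours `0, ..., q - 1` (value `0` outside `S`) -/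
noncomputable def cols (G : SimpleGraph V) (S : Finset V) (q : ℕ) : Finset (V → ℕ) := by
  classical
  exact (Fintype.piFinset fun v => if v ∈ S then range q else {0}).filter
    fun c => ∀ u ∈ S, ∀ v ∈ S, G.Adj u v → c u ≠ c v

theorem mem_cols {G : SimpleGraph V} {S : Finset V} {q : ℕ} {c : V → ℕ} :
    c ∈ cols G S q ↔ (∀ v ∈ S, c v < q) ∧ (∀ v, v ∉ S → c v = 0) ∧
      ∀ u ∈ S, ∀ v ∈ S, G.Adj u v → c u ≠ c v := by
  classical
  unfold cols
  rw [mem_filter, Fintype.mem_piFinset, and_assoc.symm]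
  refine and_congr_left fun _ => ?_
  constructor
  · intro h
    refine ⟨fun v hv => ?_, fun v hv => ?_⟩
    · have := h v
      rwa [if_pos hv, mem_range] at this
    · have := h v
      rwa [if_neg hv, mem_singleton] at this
  · rintro ⟨h1, h2⟩ v
    by_cases hv : v ∈ S
    · rw [if_pos hv, mem_range]; exact h1 v hv
    · rw [if_neg hv, mem_singleton]; exact h2 v hv

/-- the number of colourings depends only on `G[S]` -/
theorem cols_congr {G G' : SimpleGraph V} {S : Finset V} {q : ℕ}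
    (h : ∀ u ∈ S, ∀ v ∈ S, (G.Adj u v ↔ G'.Adj u v)) : cols G S q = cols G' S q := by
  ext c
  rw [mem_cols, mem_cols]
  refine and_congr_right fun _ => and_congr_right fun _ => ?_
  exact ⟨fun H u hu v hv ha => H u hu v hv ((h u hu v hv).2 ha),
    fun H u hu v hv ha => H u hu v hv ((h u hu v hv).1 ha)⟩

/-- `P` is the chromatic polynomial of `G[S]` -/
def IsChi (P : ℤ[X]) (G : SimpleGraph V) (S : Finset V) : Prop :=
  ∀ q : ℕ, P.eval (q : ℤ) = ((cols G S q).card : ℤ)

theorem poly_ext {P Q : ℤ[X]} (h : ∀ q : ℕ, P.eval (q : ℤ) = Q.eval (q : ℤ)) : P = Q := by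
  apply Polynomial.eq_of_infinite_eval_eq
  refine Set.Infinite.mono (s := Set.range fun q : ℕ => (q : ℤ)) ?_
    (Set.infinite_range_of_injective Nat.cast_injective)
  rintro _ ⟨q, rfl⟩
  exact h q

/-- the chromatic polynomial of `G[S]` (module CHI: it exists) -/
noncomputable def chi (G : SimpleGraph V) (S : Finset V) : ℤ[X] := by
  classical
  exact if h : ∃ P, IsChi P G S then h.choose else 0

theorem IsChi.eq_chi {P : ℤ[X]} {G : SimpleGraph V} {S : Finset V} (h : IsChi P G S) :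
    P = chi G S := by
  classical
  have hex : ∃ P, IsChi P G S := ⟨P, h⟩
  unfold chi
  rw [dif_pos hex]
  exact poly_ext fun q => (h q).trans (hex.choose_spec q).symm

theorem chi_congr {G G' : SimpleGraph V} {S : Finset V}
    (h : ∀ u ∈ S, ∀ v ∈ S, (G.Adj u v ↔ G'.Adj u v)) : chi G S = chi G' S := by
  classical
  have h1 : (fun P => IsChi P G S) = fun P => IsChi P G' S := by
    funext P
    unfold IsChi
    simp only [cols_congr h]
  unfold chi
  simp only [h1]

/-- Crapo's invariant `β = (-1)^n P'(1)` -/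
noncomputable def bet (G : SimpleGraph V) (S : Finset V) : ℤ :=
  (-1) ^ S.card * (derivative (chi G S)).eval 1

/-- `(-1)^(n-1) P'(0)` -/
noncomputable def alp (G : SimpleGraph V) (S : Finset V) : ℤ :=
  (-1) ^ (S.card + 1) * (derivative (chi G S)).eval 0

/-! ### Operations -/

/-- delete the edge `vw` -/
def del (G : SimpleGraph V) (v w : V) : SimpleGraph V where
  Adj a b := G.Adj a b ∧ ¬ (a = v ∧ b = w) ∧ ¬ (a = w ∧ b = v)
  symm := ⟨fun _ _ h => ⟨h.1.symm, fun h1 => h.2.2 ⟨h1.2, h1.1⟩, fun h1 => h.2.1 ⟨h1.2, h1.1⟩⟩⟩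
  loopless := ⟨fun _ h => h.1.ne rfl⟩

/-- add the edge `vw` -/
def add (G : SimpleGraph V) (v w : V) : SimpleGraph V where
  Adj a b := G.Adj a b ∨ (a ≠ b ∧ ((a = v ∧ b = w) ∨ (a = w ∧ b = v)))
  symm := ⟨fun _ _ h => h.elim (fun h => Or.inl h.symm) fun h => Or.inr ⟨h.1.symm,
    h.2.elim (fun h => Or.inr ⟨h.2, h.1⟩) fun h => Or.inl ⟨h.2, h.1⟩⟩⟩
  loopless := ⟨fun _ h => h.elim (fun h => h.ne rfl) fun h => h.1 rfl⟩

/-- contract `v` into `w` (use it on `S.erase v`) -/
def con (G : SimpleGraph V) (v w : V) : SimpleGraph V where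
  Adj a b := a ≠ b ∧ (G.Adj a b ∨ (a = w ∧ G.Adj v b) ∨ (b = w ∧ G.Adj v a))
  symm := ⟨fun _ _ h => ⟨h.1.symm, h.2.elim (fun h => Or.inl h.symm) fun h =>
    Or.inr (h.elim (fun h => Or.inr h) fun h => Or.inl h)⟩⟩
  loopless := ⟨fun _ h => h.1 rfl⟩

/-! ### Connectivity -/

/-- `G[S]` is connected -/
def Conn (G : SimpleGraph V) (S : Finset V) : Prop :=
  S.Nonempty ∧ ∀ A ⊆ S, A.Nonempty → A ≠ S → ∃ a ∈ A, ∃ b ∈ S, b ∉ A ∧ G.Adj a b

/-- `G[S]` is 2-connected (or `K_2`) -/
def TwoConn (G : SimpleGraph V) (S : Finset V) : Prop :=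
  2 ≤ S.card ∧ Conn G S ∧ ∀ v ∈ S, Conn G (S.erase v)

/-- `G[S]` is 3-connected -/
def ThreeConn (G : SimpleGraph V) (S : Finset V) : Prop :=
  4 ≤ S.card ∧ TwoConn G S ∧ ∀ x ∈ S, ∀ y ∈ S, x ≠ y → Conn G ((S.erase x).erase y)

/-- no edge joins `S1 \ S2` and `S2 \ S1` -/
def Sep (G : SimpleGraph V) (S1 S2 : Finset V) : Prop :=
  ∀ a ∈ S1, a ∉ S2 → ∀ b ∈ S2, b ∉ S1 → ¬ G.Adj a b

/-- neighbours inside `S` -/
noncomputable def nb (G : SimpleGraph V) (S : Finset V) (v : V) : Finset V := by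
  classical
  exact S.filter (G.Adj v)

theorem mem_nb {G : SimpleGraph V} {S : Finset V} {v x : V} :
    x ∈ nb G S v ↔ x ∈ S ∧ G.Adj v x := by
  classical
  unfold nb
  rw [mem_filter]

/-- the edges of `G[S]` -/
noncomputable def edg (G : SimpleGraph V) (S : Finset V) : Finset (Sym2 V) := by
  classical
  exact univ.filter fun e => e ∈ G.edgeSet ∧ ∀ x ∈ e, x ∈ S

/-- the number of edges of `G[S]` -/
noncomputable def ne (G : SimpleGraph V) (S : Finset V) : ℕ := (edg G S).card

/-- no induced cycle of length at least 4 inside `S` -/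
def ChordalOn (G : SimpleGraph V) (S : Finset V) : Prop :=
  ∀ n, 4 ≤ n → ∀ f : SimpleGraph.cycleGraph n ↪g G, ∃ i, f i ∉ S

/-! ### Rigidity rows -/

/-- the rigidity row of the pair `uv` at the placement `p` -/
def row (p : V → Fin 3 → ℝ) (u v : V) : V → Fin 3 → ℝ :=
  Pi.single u (p u - p v) + Pi.single v (p v - p u)

theorem row_comm (p : V → Fin 3 → ℝ) (u v : V) : row p u v = row p v u := add_comm _ _

theorem row_self (p : V → Fin 3 → ℝ) (u : V) : row p u u = 0 := by
  simp [row]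

/-- the row space of `G[S]` -/
def rs (p : V → Fin 3 → ℝ) (G : SimpleGraph V) (S : Finset V) :
    Submodule ℝ (V → Fin 3 → ℝ) :=
  Submodule.span ℝ {x | ∃ u ∈ S, ∃ v ∈ S, G.Adj u v ∧ x = row p u v}

/-- the rank of `G[S]` at the placement `p` -/
noncomputable def rk (p : V → Fin 3 → ℝ) (G : SimpleGraph V) (S : Finset V) : ℕ :=
  Module.finrank ℝ (rs p G S)

theorem rs_mono {p : V → Fin 3 → ℝ} {G G' : SimpleGraph V} {S S' : Finset V} (hS : S ⊆ S')
    (h : ∀ u ∈ S, ∀ v ∈ S, G.Adj u v → G'.Adj u v) : rs p G S ≤ rs p G' S' := by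
  apply Submodule.span_mono
  rintro x ⟨u, hu, v, hv, ha, rfl⟩
  exact ⟨u, hS hu, v, hS hv, h u hu v hv ha, rfl⟩

theorem rk_mono {p : V → Fin 3 → ℝ} {G G' : SimpleGraph V} {S S' : Finset V} (hS : S ⊆ S')
    (h : ∀ u ∈ S, ∀ v ∈ S, G.Adj u v → G'.Adj u v) : rk p G S ≤ rk p G' S' :=
  Submodule.finrank_mono (rs_mono hS h)

/-- general position: any (at most) 4 points are affinely independent -/
structure GP (p : V → Fin 3 → ℝ) : Prop where
  two : ∀ a b, a ≠ b → p a ≠ p b
  three : ∀ a b c, a ≠ b → a ≠ c → b ≠ c → ∀ x y : ℝ,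
    x • (p b - p a) + y • (p c - p a) = 0 → x = 0 ∧ y = 0
  four : ∀ a b c d, a ≠ b → a ≠ c → a ≠ d → b ≠ c → b ≠ d → c ≠ d → ∀ x y z : ℝ,
    x • (p b - p a) + y • (p c - p a) + z • (p d - p a) = 0 → x = 0 ∧ y = 0 ∧ z = 0

/-! ### Kempe components and entropy -/

/-- number of Kempe components of the colours `i`, `j` -/
noncomputable def kap (G : SimpleGraph V) (S : Finset V) (c : V → ℕ) (i j : ℕ) : ℕ :=
  Nat.card (G.induce {v | v ∈ S ∧ (c v = i ∨ c v = j)}).ConnectedComponent

/-- the six pairs of colours -/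
def prs : Finset (ℕ × ℕ) := {(0, 1), (0, 2), (0, 3), (1, 2), (1, 3), (2, 3)}

/-- total number of Kempe components -/
noncomputable def kap2 (G : SimpleGraph V) (S : Finset V) (c : V → ℕ) : ℕ :=
  ∑ s ∈ prs, kap G S c s.1 s.2

/-- forget the difference between the colours `i` and `j` -/
def merge (i j : ℕ) (x : ℕ) : ℕ := if x = j then i else x

/-- number of colourings which agree with `c` on `A` -/
noncomputable def cN (G : SimpleGraph V) (S A : Finset V) (c : V → ℕ) : ℕ := by
  classical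
  exact ((cols G S 4).filter fun c' => ∀ u ∈ A, c' u = c u).card

/-- number of colourings which agree with `c` on `A` and, up to the difference between the colours
`i` and `j`, everywhere -/
noncomputable def cM (G : SimpleGraph V) (S A : Finset V) (i j : ℕ) (c : V → ℕ) : ℕ := by
  classical
  exact ((cols G S 4).filter fun c' => (∀ u ∈ A, c' u = c u) ∧
    ∀ u ∈ S, merge i j (c' u) = merge i j (c u)).card

/-! ### The family -/

/-- all roots of the chromatic polynomial are `0, 1, 2, 3`; the multiplicity of `2` is `≤ a` -/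
def Good (G : SimpleGraph V) (S : Finset V) (a : ℕ) : Prop :=
  ∃ r0 r1 a' b : ℕ, a' ≤ a ∧
    chi G S = X ^ r0 * (X - C 1) ^ r1 * (X - C 2) ^ a' * (X - C 3) ^ b

end Pool.Agent.Xu
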